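import Pool.Agent.Helper5.BD.GDefs

/-!
# Module GF1: the wall-free principle

Averaging over all colourings of the vertices, for two drawings: the given drawing `P` for the
second plane and an optimal drawing of the subgraph of the edges in `Sx` for the first plane.
-/

noncomputable section

open Finset Helper5.CR Classical Equiv Equiv.Perm

namespace Helper5.BD

variable {V E : Type} [Fintype E] {src tgt : E → V}

/-- existence of an optimal good drawing of a multigraph without loops -/
private theorem exists_good [Fintype V] (hne : ∀ e, src e ≠ tgt e) :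
    ∃ Q : PreDrawing src tgt, Q.Good ∧ Q.crossings = crM src tgt := by
  obtain ⟨Q, hs, ho⟩ := exists_optimal_of (src := src) (tgt := tgt) PreDrawing.exists_clean
    (fun P x hx => P.card_used x hx)
    (fun P e l₁ l₂ c b hr hab => P.exists_split e l₁ l₂ c b hr hab)
    (fun P hP hL e l₁ l₂ c b hr j hb hf => PreDrawing.exists_swap P hP hL e l₁ l₂ c b hr j hb hf)
  exact ⟨Q, Q.good_of_optimal hne hs ho, ho⟩

/-- the colourings of the four ends of a crossing for which both edges are bichromatic -/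
private theorem sum_bi [Fintype V] (P : PreDrawing src tgt) (hG : P.Good)
    (hne : ∀ e, src e ≠ tgt e) :
    16 * ∑ col : V → Bool, ∑ x : P.X2,
      (if ¬ col (src (P.ed₁ hG x)) = col (tgt (P.ed₁ hG x)) ∧
        ¬ col (src (P.ed₂ hG x)) = col (tgt (P.ed₂ hG x)) then 1 else 0) =
      2 ^ Fintype.card V * (4 * P.crossings) := by
  rw [Finset.sum_comm, Finset.mul_sum]
  have h : ∀ x : P.X2, 16 * ∑ col : V → Bool,
      (if ¬ col (src (P.ed₁ hG x)) = col (tgt (P.ed₁ hG x)) ∧
        ¬ col (src (P.ed₂ hG x)) = col (tgt (P.ed₂ hG x)) then 1 else 0) =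
      2 ^ Fintype.card V * 4 := by
    intro x
    have := (P.toCSys hG hne).sum_four
      (fun p q r s => if ¬ p = q ∧ ¬ r = s then 1 else 0) x
    refine this.trans ?_
    simp only [Fintype.sum_bool]
    simp
  rw [Finset.sum_congr rfl (fun x _ => h x), Finset.sum_const, smul_eq_mul, Finset.card_univ,
    P.card_X2]
  ring

/-- the colourings of the four ends of a crossing for which all four ends have one colour -/
private theorem sum_mono [Fintype V] (P : PreDrawing src tgt) (hG : P.Good)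
    (hne : ∀ e, src e ≠ tgt e) :
    16 * ∑ col : V → Bool, ∑ x : P.X2,
      (if col (src (P.ed₁ hG x)) = col (tgt (P.ed₁ hG x)) ∧
        col (src (P.ed₂ hG x)) = col (tgt (P.ed₂ hG x)) ∧
        col (src (P.ed₁ hG x)) = col (src (P.ed₂ hG x)) then 1 else 0) =
      2 ^ Fintype.card V * (2 * P.crossings) := by
  rw [Finset.sum_comm, Finset.mul_sum]
  have h : ∀ x : P.X2, 16 * ∑ col : V → Bool,
      (if col (src (P.ed₁ hG x)) = col (tgt (P.ed₁ hG x)) ∧
        col (src (P.ed₂ hG x)) = col (tgt (P.ed₂ hG x)) ∧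
        col (src (P.ed₁ hG x)) = col (src (P.ed₂ hG x)) then 1 else 0) =
      2 ^ Fintype.card V * 2 := by
    intro x
    have := (P.toCSys hG hne).sum_four
      (fun p q r s => if p = q ∧ r = s ∧ p = r then 1 else 0) x
    refine this.trans ?_
    simp only [Fintype.sum_bool]
    simp
  rw [Finset.sum_congr rfl (fun x _ => h x), Finset.sum_const, smul_eq_mul, Finset.card_univ,
    P.card_X2]
  ring

/-- a subgraph of a subgraph -/
private theorem crS_sub (A C : E → Prop) (B : {e // A e} → Prop)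
    (h : ∀ e, C e ↔ ∃ he : A e, B ⟨e, he⟩) : crS src tgt C =
    crS (fun e : {e // A e} => src e.1) (fun e : {e // A e} => tgt e.1) B := by
  unfold crS
  exact crM_congr
    { toFun := fun e => ⟨⟨e.1, ((h e.1).1 e.2).choose⟩, ((h e.1).1 e.2).choose_spec⟩
      invFun := fun e => ⟨e.1.1, (h e.1.1).2 ⟨e.1.2, e.2⟩⟩
      left_inv := fun e => rfl
      right_inv := fun e => rfl } (fun e => rfl) (fun e => rfl)

/-- the two planes for one colouring -/
private theorem planes (P : PreDrawing src tgt) (hG : P.Good)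
    (Sx : E → Prop) (hSx : ∀ x : P.X2, Sx (P.ed₁ hG x) ∧ Sx (P.ed₂ hG x))
    (Q : PreDrawing (fun e : {e // Sx e} => src e.1) (fun e : {e // Sx e} => tgt e.1))
    (hQ : Q.Good) (hne : ∀ e, src e ≠ tgt e) (col : V → Bool) :
    crS src tgt (fun e => Sx e ∧ col (src e) = col (tgt e)) +
      crS src tgt (fun e => ¬ (Sx e ∧ col (src e) = col (tgt e))) ≤
    (∑ x : Q.X2, if col (src (Q.ed₁ hQ x).1) = col (tgt (Q.ed₁ hQ x).1) ∧
        col (src (Q.ed₂ hQ x).1) = col (tgt (Q.ed₂ hQ x).1) ∧
        col (src (Q.ed₁ hQ x).1) = col (src (Q.ed₂ hQ x).1) then 1 else 0) +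
    ∑ x : P.X2, if ¬ col (src (P.ed₁ hG x)) = col (tgt (P.ed₁ hG x)) ∧
        ¬ col (src (P.ed₂ hG x)) = col (tgt (P.ed₂ hG x)) then 1 else 0 := by
  refine Nat.add_le_add ?_ ?_
  · have h1 : crS src tgt (fun e => Sx e ∧ col (src e) = col (tgt e)) =
        crS (fun e : {e // Sx e} => src e.1) (fun e : {e // Sx e} => tgt e.1)
          (fun e : {e // Sx e} => col (src e.1) = col (tgt e.1)) :=
      crS_sub _ _ _ fun e => ⟨fun h => ⟨h.1, h.2⟩, fun ⟨h, h'⟩ => ⟨h, h'⟩⟩
    rw [h1]
    refine (Q.plane1_le hQ (fun e => hne e.1) col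
      (fun e : {e // Sx e} => col (src e.1) = col (tgt e.1)) (fun e he => he)).trans ?_
    exact Finset.sum_le_sum fun x _ => le_of_eq (PreDrawing.ite_of_iff Iff.rfl)
  · refine (P.plane2_le hG _).trans ?_
    refine Finset.sum_le_sum fun x _ => le_of_eq (PreDrawing.ite_of_iff ?_)
    have h := hSx x
    tauto

/-- GF1 (wall-free principle).  `P` any good drawing, `Sx` a set of edges containing all crossed
edges. -/
theorem wallfree [Fintype V] (P : PreDrawing src tgt) (hG : P.Good) (hne : ∀ e, src e ≠ tgt e)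
    (Sx : E → Prop) (hSx : ∀ x : P.X2, Sx (P.ed₁ hG x) ∧ Sx (P.ed₂ hG x)) :
    ∃ S : E → Prop, 8 * (crS src tgt S + crS src tgt (fun e => ¬ S e)) ≤
      2 * P.crossings + crS src tgt Sx := by
  obtain ⟨Q, hQ, ho⟩ := exists_good (src := fun e : {e // Sx e} => src e.1)
    (tgt := fun e : {e // Sx e} => tgt e.1) (fun e => hne e.1)
  have hQc : Q.crossings = crS src tgt Sx := ho
  by_contra hcon
  push Not at hcon
  have h1 := sum_bi P hG hne
  have h2 := sum_mono Q hQ (fun e => hne e.1)
  rw [hQc] at h2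
  have h3 : ∑ col : V → Bool, (2 * P.crossings + crS src tgt Sx) <
      ∑ col : V → Bool, 8 * ((∑ x : Q.X2, if col (src (Q.ed₁ hQ x).1) = col (tgt (Q.ed₁ hQ x).1) ∧
        col (src (Q.ed₂ hQ x).1) = col (tgt (Q.ed₂ hQ x).1) ∧
        col (src (Q.ed₁ hQ x).1) = col (src (Q.ed₂ hQ x).1) then 1 else 0) +
      ∑ x : P.X2, if ¬ col (src (P.ed₁ hG x)) = col (tgt (P.ed₁ hG x)) ∧
        ¬ col (src (P.ed₂ hG x)) = col (tgt (P.ed₂ hG x)) then 1 else 0) := by
    refine Finset.sum_lt_sum_of_nonempty ⟨fun _ => true, Finset.mem_univ _⟩ fun col _ => ?_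
    exact lt_of_lt_of_le (hcon _) (Nat.mul_le_mul_left _ (planes P hG Sx hSx Q hQ hne col))
  rw [Finset.sum_const, ← Finset.mul_sum, Finset.sum_add_distrib, smul_eq_mul,
    Finset.card_univ] at h3
  have h4 : Fintype.card (V → Bool) = 2 ^ Fintype.card V := by simp
  rw [h4] at h3
  have h5 : 2 ^ Fintype.card V * (2 * P.crossings + crS src tgt Sx) * 2 <
      2 ^ Fintype.card V * (4 * P.crossings) + 2 ^ Fintype.card V * (2 * crS src tgt Sx) := by
    rw [← h1, ← h2]
    omega
  have h6 : 2 ^ Fintype.card V * (2 * P.crossings + crS src tgt Sx) * 2 =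
      2 ^ Fintype.card V * (4 * P.crossings) + 2 ^ Fintype.card V * (2 * crS src tgt Sx) := by
    ring
  omega

end Helper5.BD
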